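import Pool.Agent.TH197.SymAP.Star
import Pool.Agent.TH197.SymAP.Interval
import Pool.Agent.TH197.SymAP.Local

/-!
# Sets without `k`-term progressions that are invariant under permutations of blocks

We view `F_p^{dn}` as the set of words of length `n` over the alphabet `F_p^d` and look at the
`k`-AP-free sets that are invariant under the permutations of the `n` letters. Their exponential
growth rate is the solution of a finite problem: it is the largest size `M k p d` of a set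
`S ⊆ F_p^d` which carries no balanced weight on its nontrivial `k`-term progressions. The upper
bound `(M + ε)^n` already holds for the sets with much less symmetry.
-/

set_option autoImplicit false

namespace Pool.Agent.Results.MP_b30443_co.BlockSymmetric

open Finset Equiv Filter Topology

/-- `A ⊆ F_p^n` contains no nontrivial `k`-term progression `x, x+y, …, x+(k-1)y` with `y ≠ 0`. -/
def APFree (k p n : ℕ) (A : Finset (Fin n → ZMod p)) : Prop :=
  ∀ x y : Fin n → ZMod p, (∀ i : ℕ, i < k → x + i • y ∈ A) → y = 0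

/-- `r_k(F_p^n)`: the largest size of a subset of `F_p^n` without nontrivial `k`-term
progressions. -/
noncomputable def r (k p n : ℕ) : ℕ :=
  sSup {m : ℕ | ∃ A : Finset (Fin n → ZMod p), APFree k p n A ∧ A.card = m}

/-- `λ_{k,p} = sup_{n ≥ 1} r_k(F_p^n)^{1/n}`. -/
noncomputable def lam (k p : ℕ) : ℝ :=
  ⨆ n : ℕ, (r k p (n + 1) : ℝ) ^ (1 / ((n : ℝ) + 1))

/-- A set `A` of words of length `n` over the alphabet `F_p^d` (a subset of `F_p^{dn}`) without
nontrivial `k`-term progression. -/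
def BlockAPFree (k p d n : ℕ) (A : Finset (Fin n → Fin d → ZMod p)) : Prop :=
  ∀ x y : Fin n → Fin d → ZMod p, (∀ i : ℕ, i < k → x + i • y ∈ A) → y = 0

/-- `A` is invariant under all permutations of the `n` blocks. -/
def BlockSym (p d n : ℕ) (A : Finset (Fin n → Fin d → ZMod p)) : Prop :=
  ∀ (σ : Perm (Fin n)), ∀ x ∈ A, (fun i => x (σ i)) ∈ A

/-- The largest size of a `k`-AP-free subset of `F_p^{dn}` that is invariant under the permutations
of the `n` blocks of length `d`. -/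
noncomputable def rblk (k p d n : ℕ) : ℕ :=
  sSup {m : ℕ | ∃ A : Finset (Fin n → Fin d → ZMod p),
    BlockAPFree k p d n A ∧ BlockSym p d n A ∧ A.card = m}

/-- `S ⊆ F_p^d` carries a balanced weight: a function `w ≠ 0` with values in `ℕ` on the pairs
`(a, y)` with `y ≠ 0` and `a, a + y, …, a + (k - 1) y ∈ S` such that for all `s` the sum of
`w (a, y)` over the pairs with `a + i y = s` is the same for `i = 0, …, k - 1`. -/
def Balanced (k p d : ℕ) [NeZero p] (S : Finset (Fin d → ZMod p)) : Prop :=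
  ∃ w : (Fin d → ZMod p) × (Fin d → ZMod p) → ℕ, (∃ q, w q ≠ 0) ∧
    (∀ q, w q ≠ 0 → q.2 ≠ 0 ∧ ∀ i : ℕ, i < k → q.1 + i • q.2 ∈ S) ∧
    ∀ i : ℕ, i < k → ∀ s : Fin d → ZMod p, (∑ q, if q.1 + i • q.2 = s then w q else 0) =
      ∑ q, if q.1 = s then w q else 0

/-- The largest size of a subset of `F_p^d` that carries no balanced weight. -/
noncomputable def M (k p d : ℕ) [NeZero p] : ℕ :=
  sSup {m : ℕ | ∃ S : Finset (Fin d → ZMod p), ¬ Balanced k p d S ∧ S.card = m}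

section

variable {p : ℕ} [hpf : Fact p.Prime]

lemma card_G (d : ℕ) : Fintype.card (Fin d → ZMod p) = p ^ d := by
  rw [Fintype.card_fun, ZMod.card, Fintype.card_fin]

lemma card_le_r {k n : ℕ} {A : Finset (Fin n → ZMod p)} (hA : APFree k p n A) :
    A.card ≤ r k p n := by
  unfold r
  apply le_csSup
  · refine ⟨Fintype.card (Fin n → ZMod p), ?_⟩
    rintro m ⟨B, _, rfl⟩
    exact Finset.card_le_univ B
  · exact ⟨A, hA, rfl⟩

lemma r_le (k n : ℕ) : r k p n ≤ p ^ n := by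
  unfold r
  apply csSup_le'
  rintro m ⟨B, _, rfl⟩
  calc B.card ≤ Fintype.card (Fin n → ZMod p) := Finset.card_le_univ B
    _ = p ^ n := card_G n

lemma le_lam (k n : ℕ) : (r k p (n + 1) : ℝ) ^ (1 / ((n : ℝ) + 1)) ≤ lam k p := by
  unfold lam
  refine le_ciSup (f := fun n : ℕ => (r k p (n + 1) : ℝ) ^ (1 / ((n : ℝ) + 1))) ?_ n
  refine ⟨(p : ℝ), ?_⟩
  rintro _ ⟨m, rfl⟩
  have h1 : (r k p (m + 1) : ℝ) ≤ (p : ℝ) ^ (m + 1) := by exact_mod_cast r_le k (m + 1)
  have h2 : (0 : ℝ) ≤ (r k p (m + 1) : ℝ) := by positivity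
  calc (r k p (m + 1) : ℝ) ^ (1 / ((m : ℝ) + 1))
      ≤ ((p : ℝ) ^ (m + 1)) ^ (1 / ((m : ℝ) + 1)) :=
        Real.rpow_le_rpow h2 h1 (by positivity)
    _ = (p : ℝ) := by
        have : ((m : ℝ) + 1) = ((m + 1 : ℕ) : ℝ) := by push_cast; ring
        rw [this, one_div, Real.pow_rpow_inv_natCast (by positivity) (by omega)]

lemma lam_nonneg (k : ℕ) : 0 ≤ lam k p :=
  le_trans (Real.rpow_nonneg (by positivity) _) (le_lam (p := p) k 0)

lemma r_le_lam_pow (k : ℕ) {n : ℕ} (hn : 1 ≤ n) : (r k p n : ℝ) ≤ lam k p ^ n := by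
  obtain ⟨m, rfl⟩ : ∃ m, n = m + 1 := ⟨n - 1, by omega⟩
  have h1 := le_lam (p := p) k m
  have h2 : (0 : ℝ) ≤ (r k p (m + 1) : ℝ) := by positivity
  have h3 : ((m : ℝ) + 1) = ((m + 1 : ℕ) : ℝ) := by push_cast; ring
  calc (r k p (m + 1) : ℝ) = ((r k p (m + 1) : ℝ) ^ (1 / ((m : ℝ) + 1))) ^ (m + 1) := by
        rw [h3, one_div, Real.rpow_inv_natCast_pow h2 (by omega)]
    _ ≤ lam k p ^ (m + 1) := pow_le_pow_left₀ (Real.rpow_nonneg h2 _) h1 _

/-- If `a^N ≤ (N + 1)^c b^N` for all `N ≥ 1` then `a ≤ b`. -/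
lemma le_of_pow_le {a b : ℝ} {c : ℕ} (hb : 0 ≤ b)
    (h : ∀ N : ℕ, 1 ≤ N → a ^ N ≤ ((N : ℝ) + 1) ^ c * b ^ N) : a ≤ b := by
  by_contra hab
  push Not at hab
  have ha0 : 0 < a := lt_of_le_of_lt hb hab
  have hq0 : 0 ≤ b / a := by positivity
  have hq1 : b / a < 1 := (div_lt_one ha0).2 hab
  have h1 := tendsto_pow_const_mul_const_pow_of_abs_lt_one c
    (show |b / a| < 1 by rwa [abs_of_nonneg hq0])
  have h3 := h1.const_mul ((2 : ℝ) ^ c)
  rw [mul_zero] at h3
  have h4 := (h3.eventually (gt_mem_nhds (show (0 : ℝ) < 1 by norm_num))).and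
    (Filter.eventually_ge_atTop 1)
  obtain ⟨N, hN, hN1⟩ := h4.exists
  have h5 := h N hN1
  have h6 : (0 : ℝ) < a ^ N := by positivity
  have h7 : 1 ≤ ((N : ℝ) + 1) ^ c * (b / a) ^ N := by
    rw [div_pow, mul_div_assoc', le_div_iff₀ h6, one_mul]
    exact h5
  have h8 : ((N : ℝ) + 1) ^ c ≤ 2 ^ c * (N : ℝ) ^ c := by
    rw [← mul_pow]
    have : (1 : ℝ) ≤ N := by exact_mod_cast hN1
    exact pow_le_pow_left₀ (by positivity) (by linarith) c
  have h9 : ((N : ℝ) + 1) ^ c * (b / a) ^ N ≤ 2 ^ c * ((N : ℝ) ^ c * (b / a) ^ N) := by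
    rw [← mul_assoc]
    exact mul_le_mul_of_nonneg_right h8 (by positivity)
  linarith

lemma not_balanced_iff (k d : ℕ) (S : Finset (Fin d → ZMod p)) :
    Balanced k p d S ↔ TH197.SymAP.Balanced k S := Iff.rfl

lemma M_bdd (k d : ℕ) :
    BddAbove {m : ℕ | ∃ S : Finset (Fin d → ZMod p), ¬ Balanced k p d S ∧ S.card = m} := by
  refine ⟨Fintype.card (Fin d → ZMod p), ?_⟩
  rintro m ⟨B, _, rfl⟩
  exact Finset.card_le_univ B

lemma le_M {k d : ℕ} {S : Finset (Fin d → ZMod p)} (hS : ¬ Balanced k p d S) :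
    S.card ≤ M k p d := le_csSup (M_bdd k d) ⟨S, hS, rfl⟩

lemma empty_unbalanced (k d : ℕ) (hk : 1 ≤ k) : ¬ Balanced k p d ∅ := by
  rintro ⟨w, ⟨q, hq⟩, h, _⟩
  have := (h q hq).2 0 (by omega)
  simp at this

lemma single_unbalanced (k d : ℕ) (hk : 2 ≤ k) (s : Fin d → ZMod p) :
    ¬ Balanced k p d {s} := by
  rintro ⟨w, ⟨q, hq⟩, h, _⟩
  have h0 := (h q hq).2 0 (by omega)
  have h1 := (h q hq).2 1 (by omega)
  rw [Finset.mem_singleton] at h0 h1
  apply (h q hq).1
  rw [zero_smul, add_zero] at h0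
  rw [one_smul, h0] at h1
  simpa using h1

lemma exists_M (k d : ℕ) (hk : 1 ≤ k) :
    ∃ S : Finset (Fin d → ZMod p), ¬ Balanced k p d S ∧ S.card = M k p d :=
  Nat.sSup_mem (s := {m : ℕ | ∃ S : Finset (Fin d → ZMod p), ¬ Balanced k p d S ∧ S.card = m})
    ⟨0, ∅, empty_unbalanced k d hk, rfl⟩ (M_bdd k d)

lemma one_le_M (k d : ℕ) (hk : 2 ≤ k) : 1 ≤ M k p d := by
  have := le_M (single_unbalanced (p := p) k d hk 0)
  rwa [Finset.card_singleton] at this

lemma M_le_card (k d : ℕ) (hk : 1 ≤ k) : M k p d ≤ Fintype.card (Fin d → ZMod p) := by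
  obtain ⟨S, _, hS⟩ := exists_M (p := p) k d hk
  rw [← hS]
  exact Finset.card_le_univ S

lemma rblk_bdd (k d n : ℕ) : BddAbove {m : ℕ | ∃ A : Finset (Fin n → Fin d → ZMod p),
    BlockAPFree k p d n A ∧ BlockSym p d n A ∧ A.card = m} := by
  refine ⟨Fintype.card (Fin n → Fin d → ZMod p), ?_⟩
  rintro m ⟨B, _, _, rfl⟩
  exact Finset.card_le_univ B

lemma rblk_upper (k d : ℕ) (hk : 2 ≤ k) : ∃ C : ℕ, ∀ n : ℕ, 1 ≤ n →
    rblk k p d n ≤ C * n ^ C * M k p d ^ n := by
  obtain ⟨C, hC⟩ := TH197.SymAP.upper (G := Fin d → ZMod p) k (M k p d) (by omega)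
    (one_le_M k d hk) (M_le_card k d (by omega)) (fun V hV => le_M hV)
  refine ⟨C, fun n hn => ?_⟩
  apply csSup_le'
  rintro t ⟨A, hA, hS, rfl⟩
  exact hC n A hn hA hS

lemma rblk_lower (k d : ℕ) (hk : 1 ≤ k) (n : ℕ) :
    M k p d ^ n ≤ (n + 1) ^ (p ^ d) * rblk k p d n := by
  obtain ⟨S, hS, hc⟩ := exists_M (p := p) k d hk
  obtain ⟨A, hA, hSy, h1⟩ := TH197.SymAP.lower (G := Fin d → ZMod p) k hk S hS n
  rw [hc, card_G] at h1
  refine h1.trans (Nat.mul_le_mul_left _ ?_)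
  exact le_csSup (rblk_bdd k d n) ⟨A, hA, hSy, rfl⟩

/-- blocks of length `d`, flattened -/
def flat (d n : ℕ) (x : Fin n → Fin d → ZMod p) : Fin (n * d) → ZMod p :=
  fun c => x (finProdFinEquiv.symm c).1 (finProdFinEquiv.symm c).2

lemma flat_bij (d n : ℕ) : Function.Bijective (flat (p := p) d n) := by
  constructor
  · intro x x' h
    funext i j
    have h1 := congrFun h (finProdFinEquiv (i, j))
    simpa [flat] using h1
  · intro z
    refine ⟨fun i j => z (finProdFinEquiv (i, j)), ?_⟩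
    funext c
    show z (finProdFinEquiv (finProdFinEquiv.symm c)) = z c
    rw [Equiv.apply_symm_apply]

lemma rblk_le_r (k d n : ℕ) : rblk k p d n ≤ r k p (n * d) := by
  classical
  apply csSup_le'
  rintro t ⟨A, hA, _, rfl⟩
  have hfree : APFree k p (n * d) (A.image (flat d n)) := by
    intro X Y hXY
    obtain ⟨x, rfl⟩ := (flat_bij (p := p) d n).2 X
    obtain ⟨y, rfl⟩ := (flat_bij (p := p) d n).2 Y
    have h1 : y = 0 := by
      apply hA x y
      intro i hi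
      have h2 := hXY i hi
      rw [Finset.mem_image] at h2
      obtain ⟨z, hz, hzz⟩ := h2
      have h3 : flat d n z = flat d n (x + i • y) := by
        rw [hzz]
        rfl
      rw [← (flat_bij (p := p) d n).1 h3]
      exact hz
    rw [h1]
    rfl
  rw [← Finset.card_image_of_injective A (flat_bij (p := p) d n).1]
  exact card_le_r hfree

lemma M_le_lam (k d : ℕ) (hk : 1 ≤ k) (hd : 1 ≤ d) : (M k p d : ℝ) ≤ lam k p ^ d := by
  refine le_of_pow_le (c := p ^ d) (pow_nonneg (lam_nonneg k) d) ?_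
  intro N hN
  have h1 : ((M k p d : ℕ) : ℝ) ^ N ≤ ((N : ℝ) + 1) ^ (p ^ d) * (r k p (N * d) : ℝ) := by
    exact_mod_cast (rblk_lower (p := p) k d hk N).trans
      (Nat.mul_le_mul_left _ (rblk_le_r k d N))
  have h2 : 1 ≤ N * d := Nat.mul_pos hN hd
  have h3 := r_le_lam_pow (p := p) k h2
  rw [mul_comm N d, pow_mul] at h3
  rw [mul_comm N d] at h1
  exact h1.trans (mul_le_mul_of_nonneg_left h3 (by positivity))

lemma r_le_M (k d : ℕ) (hk : 1 ≤ k) : r k p d ≤ M k p d := by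
  apply csSup_le'
  rintro t ⟨A, hA, rfl⟩
  apply le_M
  rintro ⟨w, ⟨q, hq⟩, h, _⟩
  exact (h q hq).1 (hA q.1 q.2 (fun i hi => (h q hq).2 i hi))

lemma M_le_r (k d : ℕ) (hk : 1 ≤ k) : M k p d ≤ r p p d := by
  obtain ⟨S, hS, hc⟩ := exists_M (p := p) k d hk
  rw [← hc]
  apply card_le_r
  intro x y hxy
  by_contra hy
  apply hS
  refine TH197.SymAP.balanced_of_line k p hpf.out.pos S x y hy ?_ hxy
  funext c
  simp

lemma torsion {d i : ℕ} (hi : 0 < i) (hip : i < p) (g : Fin d → ZMod p) (h : i • g = 0) :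
    g = 0 := by
  funext c
  have h1 := congrFun h c
  rw [Pi.smul_apply, Pi.zero_apply, nsmul_eq_mul, mul_eq_zero] at h1
  rcases h1 with h1 | h1
  · rw [ZMod.natCast_eq_zero_iff] at h1
    exact absurd (Nat.le_of_dvd hi h1) (by omega)
  · exact h1

lemma two_le_card (d : ℕ) (hd : 1 ≤ d) : 2 ≤ Fintype.card (Fin d → ZMod p) := by
  rw [card_G]
  calc 2 ≤ p := hpf.out.two_le
    _ = p ^ 1 := (pow_one p).symm
    _ ≤ p ^ d := Nat.pow_le_pow_right hpf.out.pos hd

lemma M_upper (k d : ℕ) (hk : 3 ≤ k) (hkp : k ≤ p) (hd : 1 ≤ d) :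
    (k - 1) ^ 2 * M k p d < ((k - 1) ^ 2 - 1) * p ^ d := by
  obtain ⟨S, hS, hc⟩ := exists_M (p := p) k d (by omega)
  have h1 := TH197.SymAP.star_bound k hk (fun i hi hik g hg => torsion hi (by omega) g hg)
    (two_le_card d hd) S hS
  have h2 := Finset.card_compl_add_card S
  rw [card_G, hc] at h2
  rw [card_G] at h1
  have h3 : 1 ≤ (k - 1) ^ 2 := Nat.one_le_pow _ _ (by omega)
  obtain ⟨K, hK⟩ : ∃ K, (k - 1) ^ 2 = K + 1 := ⟨(k - 1) ^ 2 - 1, by omega⟩
  rw [hK] at h1 ⊢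
  rw [Nat.add_sub_cancel]
  nlinarith

lemma M_four (d : ℕ) (hp : 4 ≤ p) : 4 * M 4 p d ≤ 3 * p ^ d + 1 := by
  obtain ⟨S, hS, hc⟩ := exists_M (p := p) 4 d (by omega)
  have h1 := TH197.SymAP.window_four (fun g hg => torsion (by norm_num) (by omega) g hg) S hS
  have h2 := Finset.card_compl_add_card S
  rw [card_G, hc] at h2
  rw [card_G] at h1
  omega

lemma M_add_two (k d : ℕ) (hk : 3 ≤ k) (hkp : k < p) (hd : 1 ≤ d) : M k p d + 2 ≤ p ^ d := by
  obtain ⟨S, hS, hc⟩ := exists_M (p := p) k d (by omega)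
  have h1 := TH197.SymAP.star_bound k hk (fun i hi hik g hg => torsion hi (by omega) g hg)
    (two_le_card d hd) S hS
  have h2 := Finset.card_compl_add_card S
  rw [card_G, hc] at h2
  have h3 : (Sᶜ).card ≠ 0 := by
    intro h0
    rw [h0] at h1
    omega
  have h4 : (Sᶜ).card ≠ 1 := by
    intro h0
    rw [Finset.card_eq_one] at h0
    obtain ⟨b, hb⟩ := h0
    apply hS
    have h5 : S = univ.erase b := by
      ext z
      have h6 : z ∈ Sᶜ ↔ z ∈ ({b} : Finset _) := by rw [hb]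
      rw [Finset.mem_compl, Finset.mem_singleton] at h6
      rw [Finset.mem_erase]
      constructor
      · intro hz
        exact ⟨fun h => (h6.2 h) hz, Finset.mem_univ _⟩
      · rintro ⟨hz, _⟩
        by_contra hzS
        exact hz (h6.1 hzS)
    rw [h5]
    exact TH197.SymAP.balanced_erase k (fun i hi hik g hg => torsion hi (by omega) g hg)
      (two_le_card d hd) b
  omega

lemma M_lower (k d : ℕ) (hk : 3 ≤ k) (hkp : k ≤ p) :
    (p - p / ((k + 1) / 2)) ^ d ≤ M k p d := by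
  classical
  have h1 := le_M (k := k) (d := d) (p := p)
    (S := univ.filter (fun x : Fin d → ZMod p => ∀ c, (x c).val < p - p / ((k + 1) / 2)))
    (TH197.SymAP.box_unbalanced k d hk hkp)
  refine le_trans (le_of_eq ?_) h1
  set m := p - p / ((k + 1) / 2) with hm
  have hmp : m ≤ p := Nat.sub_le _ _
  have h2 : (univ.filter (fun x : Fin d → ZMod p => ∀ c, (x c).val < m)) =
      Fintype.piFinset (fun _ : Fin d => univ.filter (fun a : ZMod p => a.val < m)) := by
    ext x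
    simp [Fintype.mem_piFinset]
  have h3 : (univ.filter (fun a : ZMod p => a.val < m)).card = m := by
    have h4 : (univ.filter (fun a : ZMod p => a.val < m)) =
        (Finset.range m).image (fun i : ℕ => (i : ZMod p)) := by
      ext a
      rw [Finset.mem_filter, Finset.mem_image]
      constructor
      · rintro ⟨_, h⟩
        exact ⟨a.val, Finset.mem_range.2 h, ZMod.natCast_zmod_val a⟩
      · rintro ⟨i, hi, rfl⟩
        rw [Finset.mem_range] at hi
        refine ⟨Finset.mem_univ _, ?_⟩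
        rw [ZMod.val_natCast_of_lt (by omega)]
        exact hi
    rw [h4, Finset.card_image_of_injOn, Finset.card_range]
    intro i hi j hj hij
    have hi' : i < m := by simpa using hi
    have hj' : j < m := by simpa using hj
    have h5 := congrArg ZMod.val hij
    rwa [ZMod.val_natCast_of_lt (by omega), ZMod.val_natCast_of_lt (by omega)] at h5
  rw [h2, Fintype.card_piFinset]
  simp [h3]

lemma local_bound (k d : ℕ) (hk : 2 ≤ k) {ε : ℝ} (hε : 0 < ε) :
    ∃ T : ℕ, ∀ (n : ℕ) (c : Fin n → Fin n) (A : Finset (Fin n → Fin d → ZMod p)),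
      BlockAPFree k p d n A →
      (∀ σ : Perm (Fin n), (∀ i, c (σ i) = c i) → ∀ x ∈ A, (fun i => x (σ i)) ∈ A) →
      ∀ m : ℕ, m = (univ.filter fun i => T ≤ (univ.filter fun j => c j = c i).card).card →
      (A.card : ℝ) ≤ (M k p d + ε) ^ m * ((p : ℝ) ^ d) ^ (n - m) := by
  obtain ⟨T, hT⟩ := TH197.SymAP.classes (G := Fin d → ZMod p) k (M k p d) (by omega)
    (one_le_M k d hk) (M_le_card k d (by omega)) (fun V hV => le_M hV) hε
  refine ⟨T, fun n c A hA hc m hm => ?_⟩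
  have h1 := hT n (Fin n) c A hA (fun i j hij x hx => hc (swap i j) (fun z => by
    rw [swap_apply_def]
    split_ifs with e1 e2
    · rw [e1, hij]
    · rw [e2, hij]
    · rfl) x hx) m hm
  rw [card_G] at h1
  exact_mod_cast h1

lemma large_bound (k d : ℕ) (hk : 2 ≤ k) {ε : ℝ} (hε : 0 < ε) :
    ∃ δ : ℝ, 0 < δ ∧ ∃ n₀ : ℕ, ∀ n : ℕ, n₀ ≤ n → ∀ H : Subgroup (Perm (Fin n)),
      (H.index : ℝ) ≤ (n.factorial : ℝ) ^ δ → ∀ A : Finset (Fin n → Fin d → ZMod p),
      BlockAPFree k p d n A → (∀ σ ∈ H, ∀ x ∈ A, (fun i => x (σ i)) ∈ A) →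
      (A.card : ℝ) ≤ (M k p d + ε) ^ n := by
  obtain ⟨δ, hδ, n₀, h⟩ := TH197.SymAP.large (G := Fin d → ZMod p) k (M k p d) (by omega)
    (one_le_M k d hk) (M_le_card k d (by omega)) (fun V hV => le_M hV) hε
  exact ⟨δ, hδ, n₀, fun n hn H hH A hA hA2 => h n hn A H hA hA2 hH⟩

lemma M_limit (k d : ℕ) (hk : 2 ≤ k) :
    Tendsto (fun n : ℕ => (rblk k p d n : ℝ) ^ (1 / (n : ℝ))) atTop (𝓝 (M k p d)) := by
  set h := M k p d with hh
  have hh1 : 1 ≤ h := one_le_M k d hk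
  obtain ⟨C, hC⟩ := rblk_upper (p := p) k d hk
  have hL0 := rblk_lower (p := p) k d (by omega)
  set D : ℕ := C + 1 with hD
  set E : ℕ := p ^ d with hE
  have hDpos : (0 : ℝ) < D := by
    have : 0 < D := by omega
    exact_mod_cast this
  have hhpos : (0 : ℝ) < h := by exact_mod_cast hh1
  have hU : ∀ n : ℕ, 1 ≤ n → (rblk k p d n : ℝ) ≤ D * (n : ℝ) ^ D * (h : ℝ) ^ n := by
    intro n hn
    have h1 : (rblk k p d n : ℝ) ≤ C * (n : ℝ) ^ C * (h : ℝ) ^ n := by exact_mod_cast hC n hn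
    have hnR : (1 : ℝ) ≤ n := by exact_mod_cast hn
    refine h1.trans ?_
    have h2 : (C : ℝ) ≤ (D : ℝ) := by
      have : C ≤ D := by omega
      exact_mod_cast this
    have h3 : (n : ℝ) ^ C ≤ (n : ℝ) ^ D := pow_le_pow_right₀ hnR (by omega)
    gcongr
  have hL : ∀ n : ℕ, 1 ≤ n → (h : ℝ) ^ n ≤ (2 : ℝ) ^ E * (n : ℝ) ^ E * (rblk k p d n : ℝ) := by
    intro n hn
    have h1 : (h : ℝ) ^ n ≤ ((n : ℝ) + 1) ^ E * rblk k p d n := by exact_mod_cast hL0 n
    have hnR : (1 : ℝ) ≤ n := by exact_mod_cast hn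
    refine h1.trans ?_
    have h2 : ((n : ℝ) + 1) ^ E ≤ (2 : ℝ) ^ E * (n : ℝ) ^ E := by
      rw [← mul_pow]
      exact pow_le_pow_left₀ (by positivity) (by linarith) E
    gcongr
  have hu : Tendsto (fun n : ℕ => (n : ℝ) ^ (1 / (n : ℝ))) atTop (𝓝 1) :=
    tendsto_rpow_div.comp tendsto_natCast_atTop_atTop
  have hc : ∀ c : ℝ, 0 < c → Tendsto (fun n : ℕ => c ^ (1 / (n : ℝ))) atTop (𝓝 1) := by
    intro c hc0
    have h1 : Tendsto (fun n : ℕ => c ^ (1 / (n : ℝ))) atTop (𝓝 (c ^ (0 : ℝ))) :=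
      tendsto_const_nhds.rpow tendsto_one_div_atTop_nhds_zero_nat (Or.inl hc0.ne')
    rwa [Real.rpow_zero] at h1
  have hup : Tendsto (fun n : ℕ => (D : ℝ) ^ (1 / (n : ℝ)) * ((n : ℝ) ^ (1 / (n : ℝ))) ^ D * h)
      atTop (𝓝 h) := by
    have := ((hc D hDpos).mul (hu.pow D)).mul_const (h : ℝ)
    simpa using this
  have hlo : Tendsto (fun n : ℕ => (h : ℝ) / (((2 : ℝ) ^ E) ^ (1 / (n : ℝ)) *
      ((n : ℝ) ^ (1 / (n : ℝ))) ^ E)) atTop (𝓝 h) := by
    have h1 := (tendsto_const_nhds (x := (h : ℝ)) (f := (atTop : Filter ℕ))).div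
      ((hc ((2 : ℝ) ^ E) (by positivity)).mul (hu.pow E)) (by norm_num)
    rw [one_pow, mul_one, div_one] at h1
    exact h1
  have e2 : ∀ (n F : ℕ), ((n : ℝ) ^ F) ^ (1 / (n : ℝ)) = ((n : ℝ) ^ (1 / (n : ℝ))) ^ F := by
    intro n F
    rw [← Real.rpow_natCast, ← Real.rpow_natCast, ← Real.rpow_mul (by positivity),
      ← Real.rpow_mul (by positivity), mul_comm]
  refine tendsto_of_tendsto_of_tendsto_of_le_of_le' hlo hup ?_ ?_
  · filter_upwards [eventually_ge_atTop 1] with n hn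
    have hnR : (0 : ℝ) < n := by exact_mod_cast hn
    have hr0 : (0 : ℝ) ≤ rblk k p d n := Nat.cast_nonneg _
    rw [div_le_iff₀ (by positivity)]
    have h1 := Real.rpow_le_rpow (by positivity) (hL n hn)
      (show (0 : ℝ) ≤ 1 / (n : ℝ) by positivity)
    rw [Real.mul_rpow (by positivity) hr0, Real.mul_rpow (by positivity) (by positivity), e2,
      one_div, Real.pow_rpow_inv_natCast (by positivity) (by omega), ← one_div] at h1
    linarith
  · filter_upwards [eventually_ge_atTop 1] with n hn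
    have hnR : (0 : ℝ) < n := by exact_mod_cast hn
    have hr0 : (0 : ℝ) ≤ rblk k p d n := Nat.cast_nonneg _
    have h1 := Real.rpow_le_rpow hr0 (hU n hn) (show (0 : ℝ) ≤ 1 / (n : ℝ) by positivity)
    rw [Real.mul_rpow (by positivity) (by positivity),
      Real.mul_rpow (by positivity) (by positivity), e2] at h1
    have e1 : ((h : ℝ) ^ n) ^ (1 / (n : ℝ)) = h := by
      rw [one_div]
      exact Real.pow_rpow_inv_natCast (by positivity) (by omega)
    rw [e1] at h1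
    exact h1

end

/-- Let `p ≥ k ≥ 3` with `p` prime and let `d ≥ 1`. The largest size `rblk k p d n` of a
`k`-AP-free subset of `F_p^{dn}` that is invariant under the permutations of the `n` blocks of
length `d` grows like `M^n`, where `M = M k p d` is the largest size of a subset of `F_p^d`
without a balanced weight. For every `ε > 0`

* there is a `T` such that `|A| ≤ (M + ε)^m p^{d(n - m)}` for the `k`-AP-free sets `A ⊆ F_p^{dn}`
  which are invariant under the permutations that preserve the classes of a partition of the `n`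
  blocks, where `m` is the number of the blocks in the classes with at least `T` elements;
* there are `δ > 0` and `n₀` such that `|A| ≤ (M + ε)^n` if `n ≥ n₀` and `A ⊆ F_p^{dn}` is
  `k`-AP-free and invariant under a group `H` of permutations of the `n` blocks whose index in the
  symmetric group is at most `(n!)^δ`.

The integer `M` satisfies

* `r_k(F_p^d) ≤ M` and `(p - ⌊p / ⌈k/2⌉⌋)^d ≤ M`;
* `M ≤ λ_{k,p}^d`, `M ≤ r_p(F_p^d)`, `M < (1 - 1/(k-1)^2) p^d`, `M ≤ (3 p^d + 1)/4` if `k = 4`,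
  and `M ≤ p^d - 2` if `k < p`;
* `M = p - 2` if `d = 1`, `k < p` and `⌈k/2⌉ > p/3`. -/
theorem result (k p d : ℕ) [Fact p.Prime] (hk : 3 ≤ k) (hkp : k ≤ p) (hd : 1 ≤ d) :
    ((∃ C : ℕ, ∀ n : ℕ, 1 ≤ n → rblk k p d n ≤ C * n ^ C * M k p d ^ n ∧
        M k p d ^ n ≤ C * n ^ C * rblk k p d n) ∧
      Tendsto (fun n : ℕ => (rblk k p d n : ℝ) ^ (1 / (n : ℝ))) atTop (𝓝 (M k p d))) ∧
    (∀ ε : ℝ, 0 < ε →
      (∃ T : ℕ, ∀ (n : ℕ) (c : Fin n → Fin n) (A : Finset (Fin n → Fin d → ZMod p)),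
        BlockAPFree k p d n A →
        (∀ σ : Perm (Fin n), (∀ i, c (σ i) = c i) → ∀ x ∈ A, (fun i => x (σ i)) ∈ A) →
        ∀ m : ℕ, m = (univ.filter fun i => T ≤ (univ.filter fun j => c j = c i).card).card →
        (A.card : ℝ) ≤ (M k p d + ε) ^ m * ((p : ℝ) ^ d) ^ (n - m)) ∧
      ∃ δ : ℝ, 0 < δ ∧ ∃ n₀ : ℕ, ∀ n : ℕ, n₀ ≤ n → ∀ H : Subgroup (Perm (Fin n)),
        (H.index : ℝ) ≤ (n.factorial : ℝ) ^ δ → ∀ A : Finset (Fin n → Fin d → ZMod p),
        BlockAPFree k p d n A → (∀ σ ∈ H, ∀ x ∈ A, (fun i => x (σ i)) ∈ A) →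
        (A.card : ℝ) ≤ (M k p d + ε) ^ n) ∧
    (r k p d ≤ M k p d ∧ (p - p / ((k + 1) / 2)) ^ d ≤ M k p d) ∧
    ((M k p d : ℝ) ≤ lam k p ^ d ∧ M k p d ≤ r p p d ∧
      (k - 1) ^ 2 * M k p d < ((k - 1) ^ 2 - 1) * p ^ d ∧
      (k = 4 → 4 * M k p d ≤ 3 * p ^ d + 1) ∧
      (k < p → M k p d + 2 ≤ p ^ d)) ∧
    (d = 1 → k < p → p < 3 * ((k + 1) / 2) → M k p d = p - 2) := by
  refine ⟨⟨?_, M_limit k d (by omega)⟩,
    fun ε hε => ⟨local_bound k d (by omega) hε, large_bound k d (by omega) hε⟩,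
    ⟨r_le_M k d (by omega), M_lower k d hk hkp⟩,
    ⟨M_le_lam k d (by omega) hd, M_le_r k d (by omega), M_upper k d hk hkp hd, ?_,
      fun h => M_add_two k d hk h hd⟩, ?_⟩
  · obtain ⟨C, hC⟩ := rblk_upper (p := p) k d (by omega)
    have hL := rblk_lower (p := p) k d (by omega)
    obtain ⟨E, hE⟩ : ∃ E, E = p ^ d := ⟨_, rfl⟩
    obtain ⟨F, hF⟩ : ∃ F, F = 2 ^ E := ⟨_, rfl⟩
    rw [← hE] at hL
    refine ⟨C + E + F, fun n hn => ⟨(hC n hn).trans ?_, (hL n).trans ?_⟩⟩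
    · exact Nat.mul_le_mul_right _ (Nat.mul_le_mul (by omega)
        (Nat.pow_le_pow_right hn (by omega)))
    · apply Nat.mul_le_mul_right
      calc (n + 1) ^ E ≤ (2 * n) ^ E := Nat.pow_le_pow_left (by omega) _
        _ = F * n ^ E := by rw [mul_pow, hF]
        _ ≤ (C + E + F) * n ^ (C + E + F) :=
          Nat.mul_le_mul (by omega) (Nat.pow_le_pow_right hn (by omega))
  · rintro rfl
    exact M_four d hkp
  · rintro rfl hkp' h3k
    have h1 := M_lower (p := p) k 1 hk hkp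
    have h2 := M_add_two (p := p) k 1 hk hkp' le_rfl
    rw [pow_one] at h1 h2
    have h3 : p / ((k + 1) / 2) < 3 := by
      rw [Nat.div_lt_iff_lt_mul (by omega)]
      exact h3k
    omega

end Pool.Agent.Results.MP_b30443_co.BlockSymmetric
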