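import Pool.Agent.TH197.Inv.Rank
import Pool.Agent.TH197.Inv.Block

/-!
# Sets without four-term progressions and with many involutive symmetries

For `k = 4` we prove an exponential saving for the progression-free sets in `F_p^n` that have many
involutive symmetries, for instance for the sets that are invariant under `t ≥ ε n` disjoint
transpositions of coordinates, or under sign changes of `t` coordinates.
-/

set_option autoImplicit false

namespace Pool.Agent.Results.MP_b30443_co.InvolutiveSymmetry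

open Finset

/-- `A` contains no progression `x, x + d, x + 2 d, x + 3 d` with `d ≠ 0`. -/
def FourAPFree {G : Type} [AddCommGroup G] (A : Finset G) : Prop :=
  ∀ x d : G, x ∈ A → x + d ∈ A → x + 2 • d ∈ A → x + 3 • d ∈ A → d = 0

/-- `A ⊆ V_1 × … × V_t × W` is invariant under the maps `s_i` of the blocks `V_i`. -/
def BlockInvariant {t : ℕ} {V : Fin t → Type} {W : Type} (s : ∀ i, V i → V i)
    (A : Finset ((∀ i, V i) × W)) : Prop :=
  ∀ i, ∀ q ∈ A, (Function.update q.1 i (s i (q.1 i)), q.2) ∈ A

section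

variable {p : ℕ} [hpf : Fact p.Prime] {t : ℕ} {V : Fin t → Type} [∀ i, AddCommGroup (V i)]
  [∀ i, Module (ZMod p) (V i)] {W : Type} [AddCommGroup W]

lemma inv_finset {s : ∀ i, V i → V i} {A : Finset ((∀ i, V i) × W)} (hA : BlockInvariant s A)
    (U : Finset (Fin t)) (x : ∀ i, V i) (w : W) (hx : (x, w) ∈ A) :
    ((fun i => if i ∈ U then s i (x i) else x i), w) ∈ A := by
  induction U using Finset.induction_on with
  | empty => simpa using hx
  | insert j U hj ih =>
    have h1 := hA j _ ih
    simp only [if_neg hj] at h1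
    have h2 : (fun i => if i ∈ insert j U then s i (x i) else x i) =
        Function.update (fun i => if i ∈ U then s i (x i) else x i) j (s j (x j)) := by
      funext i
      by_cases hij : i = j
      · subst hij
        rw [Function.update_self, if_pos (Finset.mem_insert_self _ _)]
      · rw [Function.update_of_ne hij]
        simp only [Finset.mem_insert, hij, false_or]
    rw [h2]
    exact h1

/-- the key step -/
lemma eq_of_rel (hp : 5 ≤ p) (s : ∀ i, V i →ₗ[ZMod p] V i) (hs : ∀ i x, s i (s i x) = x)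
    {A : Finset ((∀ i, V i) × W)} (hA : FourAPFree A)
    (hinv : BlockInvariant (fun i => (s i : V i → V i)) A) (w : W) {a x : ∀ i, V i}
    (ha : (a, w) ∈ A) (hx : (x, w) ∈ A)
    (hrel : ∀ i, a i = x i ∨ a i = TH197.Inv.act (s i) 3 (x i) ∨
      a i = s i (TH197.Inv.act (s i) 3 (x i))) : a = x := by
  classical
  have hact : ∀ i, TH197.Inv.act (s i) 3 (x i) = x i + (x i - s i (x i)) :=
    fun i => TH197.Inv.act_three (s i) hp (x i)
  set T : Finset (Fin t) := univ.filter (fun i => a i ≠ x i) with hT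
  set U : Finset (Fin t) := univ.filter (fun i => a i ≠ x i ∧
    a i ≠ TH197.Inv.act (s i) 3 (x i)) with hU
  -- the fourth term
  have hb := inv_finset hinv U a w ha
  have hb' : (fun i => if i ∈ U then s i (a i) else a i) =
      (fun i => if i ∈ T then x i + (x i - s i (x i)) else x i) := by
    funext i
    by_cases hi : a i = x i
    · have h1 : i ∉ U := by rw [hU, Finset.mem_filter]; tauto
      have h2 : i ∉ T := by rw [hT, Finset.mem_filter]; tauto
      rw [if_neg h1, if_neg h2, hi]
    · have h2 : i ∈ T := by rw [hT, Finset.mem_filter]; exact ⟨Finset.mem_univ _, hi⟩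
      rw [if_pos h2]
      by_cases hi2 : a i = TH197.Inv.act (s i) 3 (x i)
      · have h1 : i ∉ U := by rw [hU, Finset.mem_filter]; tauto
        rw [if_neg h1, hi2, hact]
      · have h1 : i ∈ U := by
          rw [hU, Finset.mem_filter]
          exact ⟨Finset.mem_univ _, hi, hi2⟩
        rw [if_pos h1]
        rcases hrel i with h | h | h
        · exact absurd h hi
        · exact absurd h hi2
        · rw [h, hs, hact]
  rw [hb'] at hb
  -- the other terms
  have h1 := inv_finset hinv T x w hx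
  have h0 := inv_finset hinv T _ w hb
  set P : ∀ i, V i := fun i => if i ∈ T then s i (x i) - (x i - s i (x i)) else x i with hP
  set d : ∀ i, V i := fun i => if i ∈ T then x i - s i (x i) else 0 with hd
  have e0 : (fun i => if i ∈ T then s i ((fun i => if i ∈ T then x i + (x i - s i (x i))
      else x i) i) else (fun i => if i ∈ T then x i + (x i - s i (x i)) else x i) i) = P := by
    funext i
    simp only [hP]
    by_cases hi : i ∈ T
    · simp only [if_pos hi]
      rw [map_add, map_sub, hs]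
      abel
    · simp only [if_neg hi]
  have e1 : P + d = (fun i => if i ∈ T then s i (x i) else x i) := by
    funext i
    simp only [hP, hd, Pi.add_apply]
    by_cases hi : i ∈ T
    · simp only [if_pos hi]
      abel
    · simp only [if_neg hi, add_zero]
  have e2 : P + 2 • d = x := by
    funext i
    simp only [hP, hd, Pi.add_apply, Pi.smul_apply]
    by_cases hi : i ∈ T
    · simp only [if_pos hi]
      abel
    · simp only [if_neg hi, smul_zero, add_zero]
  have e3 : P + 3 • d = (fun i => if i ∈ T then x i + (x i - s i (x i)) else x i) := by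
    funext i
    simp only [hP, hd, Pi.add_apply, Pi.smul_apply]
    by_cases hi : i ∈ T
    · simp only [if_pos hi]
      abel
    · simp only [if_neg hi, smul_zero, add_zero]
  have h4 := hA (P, w) (d, 0) (by rw [← e0]; exact h0) (by
      rw [Prod.mk_add_mk, e1, add_zero]
      exact h1) (by
      rw [Prod.smul_mk, Prod.mk_add_mk, e2, smul_zero, add_zero]
      exact hx) (by
      rw [Prod.smul_mk, Prod.mk_add_mk, e3, smul_zero, add_zero]
      exact hb)
  have h5 : d = 0 := congrArg Prod.fst h4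
  funext i
  by_contra hi
  have h2 : i ∈ T := by rw [hT, Finset.mem_filter]; exact ⟨Finset.mem_univ _, hi⟩
  have h6 := congrFun h5 i
  simp only [hd, if_pos h2, Pi.zero_apply] at h6
  have h7 : s i (x i) = x i := (sub_eq_zero.1 h6).symm
  rcases hrel i with h | h | h
  · exact hi h
  · rw [hact, h6, add_zero] at h
    exact hi h
  · rw [hact, h6, add_zero, h7] at h
    exact hi h

theorem main (hp : 5 ≤ p) [∀ i, Fintype (V i)] [Fintype W] (s : ∀ i, V i →ₗ[ZMod p] V i)
    (hs : ∀ i x, s i (s i x) = x) (hne : ∀ i, ∃ x, s i x ≠ x) (K : Subgroup (ZMod p)ˣ)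
    (hK1 : (-1 : (ZMod p)ˣ) ∈ K) (hK3 : ∃ u ∈ K, (u : ZMod p) = 3)
    (A : Finset ((∀ i, V i) × W)) (hA : FourAPFree A)
    (hinv : BlockInvariant (fun i => (s i : V i → V i)) A) :
    (A.card : ℝ) ≤ (1 - 2 * ((p : ℝ) - 1) / (p * (Nat.card K : ℝ))) ^ t *
      (Fintype.card ((∀ i, V i) × W) : ℝ) := by
  classical
  set C : Finset (ZMod p)ˣ := univ.filter (fun c => c ∈ K) with hC
  have hCK : ∀ c, c ∈ C ↔ c ∈ K := by
    intro c
    rw [hC, Finset.mem_filter]
    simp
  have hCcard : Nat.card K = C.card := by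
    rw [Nat.card_eq_fintype_card, hC, ← Fintype.card_subtype]
  have hCpos : 0 < C.card := Finset.card_pos.2 ⟨1, (hCK 1).2 K.one_mem⟩
  have hpR : (0 : ℝ) < p := by
    have : 0 < p := by omega
    exact_mod_cast this
  have hCR : (0 : ℝ) < (C.card : ℝ) := by exact_mod_cast hCpos
  choose R hR hRcard using fun i => TH197.Inv.exists_R (s i) (hs i) hp K C hCK hK1
  -- the slices
  have hslice : ∀ w : W, ((A.filter (fun q => q.2 = w)).image Prod.fst).card ≤
      ∏ i, (Fintype.card (V i) - (R i).card) := by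
    intro w
    have hmem : ∀ a, a ∈ (A.filter (fun q => q.2 = w)).image Prod.fst → (a, w) ∈ A := by
      intro a ha
      rw [Finset.mem_image] at ha
      obtain ⟨q, hq, rfl⟩ := ha
      rw [Finset.mem_filter] at hq
      rw [← hq.2]
      exact hq.1
    apply TH197.Inv.card_le R (fun i => TH197.Inv.space (s i) C) hR _
      (fun i => TH197.Inv.phi (s i))
      (fun i a => TH197.Inv.phi_mem (s i) (hs i) hp K C hCK hK1 hK3 a)
    · intro a _
      rw [Finset.prod_eq_one]
      · exact one_ne_zero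
      · intro i _
        exact TH197.Inv.phi_self (s i) (hs i) hp (a i)
    · intro a ha x hx hax
      by_contra hprod
      rw [← Ne, Finset.prod_ne_zero_iff] at hprod
      exact hax (eq_of_rel hp s hs hA hinv w (hmem a ha) (hmem x hx)
        (fun i => TH197.Inv.phi_ne (s i) (hs i) hp (hprod i (Finset.mem_univ i))))
  have hsum : A.card = ∑ w : W, ((A.filter (fun q => q.2 = w)).image Prod.fst).card := by
    rw [Finset.card_eq_sum_card_fiberwise (f := Prod.snd) (t := univ)
      (fun x _ => Finset.mem_coe.2 (Finset.mem_univ _))]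
    apply Finset.sum_congr rfl
    intro w _
    rw [Finset.card_image_of_injOn]
    rintro ⟨x, w₁⟩ h1 ⟨y, w₂⟩ h2 h3
    rw [Finset.mem_coe, Finset.mem_filter] at h1 h2
    simp only at h1 h2 h3
    rw [h3, h1.2, h2.2]
  have hle : A.card ≤ Fintype.card W * ∏ i, (Fintype.card (V i) - (R i).card) := by
    rw [hsum]
    calc ∑ w : W, ((A.filter (fun q => q.2 = w)).image Prod.fst).card
        ≤ ∑ _w : W, ∏ i, (Fintype.card (V i) - (R i).card) :=
          Finset.sum_le_sum (fun w _ => hslice w)
      _ = _ := by rw [Finset.sum_const, Finset.card_univ, smul_eq_mul]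
  have hle2 : (A.card : ℝ) ≤ (Fintype.card W : ℝ) *
      ∏ i, (((Fintype.card (V i) - (R i).card : ℕ)) : ℝ) := by
    exact_mod_cast hle
  set δ : ℝ := 2 * ((p : ℝ) - 1) / (p * (C.card : ℝ)) with hδ
  have hfac : ∀ i, (((Fintype.card (V i) - (R i).card : ℕ)) : ℝ) ≤
      (1 - δ) * (Fintype.card (V i) : ℝ) := by
    intro i
    have h1 : (R i).card ≤ Fintype.card (V i) := Finset.card_le_univ _
    rw [Nat.cast_sub h1]
    have h2 : (C.card : ℝ) * (R i).card = 2 * ((TH197.Inv.moved (s i)).card : ℝ) := by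
      exact_mod_cast hRcard i
    have h3 := TH197.Inv.moved_card (s i) (hs i) hp (hne i)
    have h4 : ((p : ℝ) - 1) * (Fintype.card (V i) : ℝ) ≤
        p * ((TH197.Inv.moved (s i)).card : ℝ) := by
      have h5 : (((p - 1) * Fintype.card (V i) : ℕ) : ℝ) ≤
          ((p * (TH197.Inv.moved (s i)).card : ℕ) : ℝ) := by exact_mod_cast h3
      push_cast [Nat.cast_sub (show 1 ≤ p by omega)] at h5
      exact h5
    have h5 : δ * (Fintype.card (V i) : ℝ) ≤ ((R i).card : ℝ) := by
      rw [hδ, div_mul_eq_mul_div, div_le_iff₀ (by positivity)]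
      nlinarith
    linarith
  have hδ1 : 0 ≤ 1 - δ := by
    rw [sub_nonneg, hδ, div_le_one (by positivity)]
    have hne1 : (1 : (ZMod p)ˣ) ≠ -1 := by
      intro h
      have h5 := congrArg (fun u : (ZMod p)ˣ => (u : ZMod p)) h
      simp only [Units.val_one, Units.val_neg] at h5
      apply TH197.Inv.two_ne (p := p) hp
      linear_combination h5
    have h2 : 2 ≤ C.card := by
      have h3 : ({1, -1} : Finset (ZMod p)ˣ) ⊆ C := by
        intro c hc
        rw [Finset.mem_insert, Finset.mem_singleton] at hc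
        rcases hc with rfl | rfl
        · exact (hCK _).2 K.one_mem
        · exact (hCK _).2 hK1
      calc 2 = ({1, -1} : Finset (ZMod p)ˣ).card := (Finset.card_pair hne1).symm
        _ ≤ C.card := Finset.card_le_card h3
    have h3 : (2 : ℝ) ≤ (C.card : ℝ) := by exact_mod_cast h2
    nlinarith
  have hprod : ∏ i, (((Fintype.card (V i) - (R i).card : ℕ)) : ℝ) ≤
      (1 - δ) ^ t * ∏ i, (Fintype.card (V i) : ℝ) := by
    calc ∏ i, (((Fintype.card (V i) - (R i).card : ℕ)) : ℝ)
        ≤ ∏ i, ((1 - δ) * (Fintype.card (V i) : ℝ)) :=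
          Finset.prod_le_prod (fun i _ => Nat.cast_nonneg _) (fun i _ => hfac i)
      _ = _ := by
        rw [Finset.prod_mul_distrib, Finset.prod_const, Finset.card_univ, Fintype.card_fin]
  rw [hCcard]
  calc (A.card : ℝ) ≤ (Fintype.card W : ℝ) *
        ∏ i, (((Fintype.card (V i) - (R i).card : ℕ)) : ℝ) := hle2
    _ ≤ (Fintype.card W : ℝ) * ((1 - δ) ^ t * ∏ i, (Fintype.card (V i) : ℝ)) :=
      mul_le_mul_of_nonneg_left hprod (Nat.cast_nonneg _)
    _ = (1 - δ) ^ t * (Fintype.card ((∀ i, V i) × W) : ℝ) := by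
      rw [Fintype.card_prod, Fintype.card_pi]
      push_cast
      ring

lemma digits_free : ∀ a d : ZMod 5, a ∈ ({0, 1, 4} : Finset (ZMod 5)) →
    a + d ∈ ({0, 1, 4} : Finset (ZMod 5)) → a + 2 • d ∈ ({0, 1, 4} : Finset (ZMod 5)) →
    a + 3 • d ∈ ({0, 1, 4} : Finset (ZMod 5)) → d = 0 := by decide

lemma digits_neg : ∀ a : ZMod 5, a ∈ ({0, 1, 4} : Finset (ZMod 5)) →
    -a ∈ ({0, 1, 4} : Finset (ZMod 5)) := by decide

end

lemma three_ne_five : (3 : ZMod 5) ≠ 0 := by decide

lemma neg_one_ne_five : -(1 : ZMod 5) ≠ 1 := by decide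

/-- the case of sign changes in `F_5^t` -/
lemma sign_five (t : ℕ) (A : Finset (Fin t → ZMod 5)) (hA : FourAPFree A)
    (hinv : ∀ i, ∀ x ∈ A, Function.update x i (-(x i)) ∈ A) : A.card ≤ 3 ^ t := by
  classical
  have : Fact (Nat.Prime 5) := ⟨by norm_num⟩
  set B : Finset ((∀ _ : Fin t, ZMod 5) × Unit) := A.image (fun x => (x, ())) with hB
  have hBc : B.card = A.card := by
    rw [hB, Finset.card_image_of_injective]
    intro x y h
    exact congrArg Prod.fst h
  have hmem : ∀ x, (x, ()) ∈ B ↔ x ∈ A := by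
    intro x
    rw [hB, Finset.mem_image]
    constructor
    · rintro ⟨y, hy, h⟩
      have h' : y = x := congrArg Prod.fst h
      rw [← h']
      exact hy
    · intro hx
      exact ⟨x, hx, rfl⟩
  have hBfree : FourAPFree B := by
    rintro ⟨x, _⟩ ⟨d, _⟩ h0 h1 h2 h3
    have h4 := hA x d ((hmem x).1 h0) ((hmem (x + d)).1 h1) ((hmem (x + 2 • d)).1 h2)
      ((hmem (x + 3 • d)).1 h3)
    rw [h4]
    rfl
  have hBinv : BlockInvariant (fun _ : Fin t =>
      ((-LinearMap.id : ZMod 5 →ₗ[ZMod 5] ZMod 5) : ZMod 5 → ZMod 5)) B := by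
    rintro i ⟨x, _⟩ hx
    have h1 := hinv i x ((hmem x).1 hx)
    exact (hmem _).2 h1
  have h3 : IsUnit (3 : ZMod 5) := by
    rw [isUnit_iff_ne_zero]
    exact three_ne_five
  obtain ⟨u, hu⟩ := h3
  have hmain := main (p := 5) (le_refl 5) (fun _ : Fin t => (-LinearMap.id : ZMod 5 →ₗ[ZMod 5] ZMod 5))
    (fun i x => by simp) (fun i => ⟨1, neg_one_ne_five⟩) (⊤ : Subgroup (ZMod 5)ˣ) (Subgroup.mem_top _)
    ⟨u, Subgroup.mem_top _, hu⟩ B hBfree hBinv
  have hK : (Nat.card (⊤ : Subgroup (ZMod 5)ˣ) : ℝ) = 4 := by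
    rw [Subgroup.card_top, Nat.card_eq_fintype_card, ZMod.card_units]
    norm_num
  have hG : (Fintype.card ((∀ _ : Fin t, ZMod 5) × Unit) : ℝ) = 5 ^ t := by
    rw [Fintype.card_prod, Fintype.card_fun, ZMod.card, Fintype.card_fin]
    simp
  rw [hK, hG, hBc, ← mul_pow] at hmain
  have h5 : (1 - 2 * (((5 : ℕ) : ℝ) - 1) / (((5 : ℕ) : ℝ) * 4)) * 5 = 3 := by norm_num
  rw [h5] at hmain
  exact_mod_cast hmain

/-- Let `p ≥ 5` be prime. Let `V_1, …, V_t, W` be finite vector spaces over `F_p`, let `s_i ≠ 1` be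
a linear involution of `V_i`, and let `K` be a subgroup of `F_p^*` that contains `-1` and `3`
(for instance `K = F_p^*`). If `A ⊆ V_1 × … × V_t × W` contains no nontrivial four-term progression
and is invariant under all the `s_i`, then
`|A| ≤ (1 - 2 (p - 1) / (p |K|))^t |V_1 × … × V_t × W|`; with `K = F_p^*` this is
`(1 - 2/p)^t |V_1 × … × V_t × W|`.

This is sharp for `p = 5`: the largest subset of `F_5^t` without nontrivial four-term progressions
which is invariant under the sign changes of all coordinates has exactly `3^t = (1 - 2/5)^t 5^t`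
elements. -/
theorem result (p : ℕ) [Fact p.Prime] (hp : 5 ≤ p) :
    (∀ (t : ℕ) (V : Fin t → Type) (W : Type) [∀ i, AddCommGroup (V i)]
      [∀ i, Module (ZMod p) (V i)] [∀ i, Fintype (V i)] [AddCommGroup W] [Fintype W]
      (s : ∀ i, V i →ₗ[ZMod p] V i) (K : Subgroup (ZMod p)ˣ) (A : Finset ((∀ i, V i) × W)),
      (∀ i x, s i (s i x) = x) → (∀ i, ∃ x, s i x ≠ x) →
      (-1 : (ZMod p)ˣ) ∈ K → (∃ u ∈ K, (u : ZMod p) = 3) →
      FourAPFree A → BlockInvariant (fun i => (s i : V i → V i)) A →
      (A.card : ℝ) ≤ (1 - 2 * ((p : ℝ) - 1) / (p * (Nat.card K : ℝ))) ^ t *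
        (Fintype.card ((∀ i, V i) × W) : ℝ)) ∧
    (∀ t : ℕ, (∀ A : Finset (Fin t → ZMod 5), FourAPFree A →
        (∀ i, ∀ x ∈ A, Function.update x i (-(x i)) ∈ A) → A.card ≤ 3 ^ t) ∧
      ∃ A : Finset (Fin t → ZMod 5), FourAPFree A ∧
        (∀ i, ∀ x ∈ A, Function.update x i (-(x i)) ∈ A) ∧ A.card = 3 ^ t) := by
  classical
  refine ⟨?_, fun t => ⟨sign_five t, ?_⟩⟩
  · intro t V W _ _ _ _ _ s K A hs hne hK1 hK3 hA hinv
    exact main hp s hs hne K hK1 hK3 A hA hinv
  · refine ⟨Fintype.piFinset (fun _ => ({0, 1, 4} : Finset (ZMod 5))), ?_, ?_, ?_⟩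
    · intro x d h0 h1 h2 h3
      rw [Fintype.mem_piFinset] at h0 h1 h2 h3
      funext i
      exact digits_free (x i) (d i) (h0 i) (h1 i) (h2 i) (h3 i)
    · intro i x hx
      rw [Fintype.mem_piFinset] at hx ⊢
      intro j
      by_cases hj : j = i
      · subst hj
        rw [Function.update_self]
        exact digits_neg _ (hx j)
      · rw [Function.update_of_ne hj]
        exact hx j
    · rw [Fintype.card_piFinset]
      simp only [Finset.prod_const, Finset.card_univ, Fintype.card_fin]
      congr 1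

end Pool.Agent.Results.MP_b30443_co.InvolutiveSymmetry
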