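import Mathlib
import Pool.Agent.TH413.Rate

/-!
# MP_b30443_co: progression-free sets in `F_p^n` for `p = 5, 7, 11, 13`

For an odd prime `p` call a set `S ⊆ F_p^d` *peelable* if it can be emptied by removing, again and
again, a point which is not the midpoint of two other points that are still present. A peelable set
gives `λ_{3,p} ≥ |S|^{1/d}`. We exhibit peelable sets with `36` points in `F_5^3` and with `19`,
`44`, `60` points in `F_7^2`, `F_11^2`, `F_13^2`, and let the kernel check them.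
-/

namespace Pool.Agent.Results.MP_b30443_co.SmallPrimes

open Finset Filter Topology
open Pool.Agent.TH413

/-- `A ⊆ F_p^n` contains no nontrivial `k`-term progression `x, x+y, …, x+(k-1)y` with `y ≠ 0`. -/
def APFree (k p n : ℕ) (A : Finset (Fin n → ZMod p)) : Prop :=
  ∀ x y : Fin n → ZMod p, (∀ i : ℕ, i < k → x + i • y ∈ A) → y = 0

/-- `r_k(F_p^n)`: the largest size of a subset of `F_p^n` without nontrivial `k`-term
progressions. -/
noncomputable def r (k p n : ℕ) : ℕ :=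
  sSup {m : ℕ | ∃ A : Finset (Fin n → ZMod p), APFree k p n A ∧ A.card = m}

/-- `36` points of `F_5^3`, coded by `x₀ + 5 x₁ + 25 x₂`, in an order in which they can be peeled
off. -/
def l5 : List ℕ := [13, 19, 64, 92, 88, 74, 98, 117, 115, 90, 112, 17, 37, 65, 118, 36, 18, 109, 32,
  20, 83, 30, 55, 57, 80, 49, 84, 95, 47, 21, 97, 107, 108, 113, 120, 124]

/-- `19` points of `F_7^2`. -/
def l7 : List ℕ := [35, 36, 5, 40, 16, 21, 26, 9, 18, 24, 30, 27, 38, 17, 20, 44, 45, 46, 48]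

/-- `44` points of `F_11^2`. -/
def l11 : List ℕ := [30, 9, 28, 47, 49, 70, 66, 98, 89, 119, 17, 19, 59, 10, 71, 31, 78, 91, 21, 61,
  11, 60, 90, 36, 48, 18, 6, 101, 109, 26, 56, 75, 97, 105, 14, 44, 85, 113, 73, 22, 63, 93, 103,
  115]

/-- `60` points of `F_13^2`. -/
def l13 : List ℕ := [108, 30, 38, 69, 152, 113, 53, 74, 144, 58, 97, 141, 3, 31, 42, 136, 156, 81,
  114, 43, 71, 59, 26, 98, 153, 6, 33, 120, 47, 65, 23, 63, 66, 82, 87, 103, 106, 121, 122, 124, 46,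
  137, 62, 138, 140, 49, 143, 154, 28, 25, 9, 100, 84, 127, 52, 130, 146, 68, 159, 162]

lemma c5 : PL.chk 5 3 l5 = true := by decide +kernel
lemma c7 : PL.chk 7 2 l7 = true := by decide +kernel
lemma c11 : PL.chk 11 2 l11 = true := by decide +kernel
lemma c13 : PL.chk 13 2 l13 = true := by decide +kernel

lemma main {p : ℕ} (hp : p.Prime) {d : ℕ} (hd : 1 ≤ d) (l : List ℕ) (hl : PL.chk p d l = true)
    (hne : 1 ≤ l.length) {k : ℕ} (hk : 3 ≤ k) (hkp : k ≤ p) :
    ∃ L : ℝ, Tendsto (fun n : ℕ => (r k p n : ℝ) ^ (1 / (n : ℝ))) atTop (𝓝 L) ∧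
      (l.length : ℝ) ^ (1 / (d : ℝ)) ≤ L := by
  have := Fact.mk hp
  obtain ⟨L, hL, h⟩ := PL.rate_list (k := k) (p := p) hk hkp hd l hl hne
  refine ⟨L, hL, ?_⟩
  have hL0 : 0 ≤ L := ge_of_tendsto' hL fun n => by positivity
  have hd' : (d : ℝ) ≠ 0 := by exact_mod_cast (by omega : d ≠ 0)
  calc (l.length : ℝ) ^ (1 / (d : ℝ)) ≤ (L ^ d) ^ (1 / (d : ℝ)) :=
        Real.rpow_le_rpow (by positivity) h (by positivity)
    _ = L := by
        rw [← Real.rpow_natCast, ← Real.rpow_mul hL0, mul_one_div_cancel hd', Real.rpow_one]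

/-- For `p ∈ {5, 7, 11, 13}` and every `3 ≤ k ≤ p` the limit
`λ_{k,p} = lim_n r_k(F_p^n)^{1/n}` exists, and `λ_{k,5} ≥ 36^{1/3}`, `λ_{k,7} ≥ 19^{1/2}`,
`λ_{k,11} ≥ 44^{1/2}`, `λ_{k,13} ≥ 60^{1/2}`. -/
theorem result : ∀ q ∈ [(5, 36, 3), (7, 19, 2), (11, 44, 2), (13, 60, 2)],
    ∀ k : ℕ, 3 ≤ k → k ≤ q.1 →
      ∃ L : ℝ, Tendsto (fun n : ℕ => (r k q.1 n : ℝ) ^ (1 / (n : ℝ))) atTop (𝓝 L) ∧
        (q.2.1 : ℝ) ^ (1 / (q.2.2 : ℝ)) ≤ L := by
  intro q hq k hk hkq
  simp only [List.mem_cons, List.not_mem_nil, or_false] at hq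
  rcases hq with rfl | rfl | rfl | rfl
  · exact main (by norm_num) (by norm_num) l5 c5 (by decide) hk hkq
  · exact main (by norm_num) (by norm_num) l7 c7 (by decide) hk hkq
  · exact main (by norm_num) (by norm_num) l11 c11 (by decide) hk hkq
  · exact main (by norm_num) (by norm_num) l13 c13 (by decide) hk hkq

end Pool.Agent.Results.MP_b30443_co.SmallPrimes
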