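import Pool.Agent.TH602.Lines.Classes
import Mathlib.Data.ZMod.Basic
import Mathlib.Algebra.Field.ZMod

/-!
# Power saving for `k`-AP-free subsets of `F_p^n` with a local or algebraic description

For `k ≥ 4` no bound `r_k(F_p^n) ≤ C c^n` with `c < p` is known. We prove such a bound, for all
`3 ≤ k ≤ p`, for the sets `A = B ∩ C` where `B` is determined by its projections onto at most `m`
coordinates and `C` is closed under coordinatewise idempotent operations of arity at most `m` with
absorbing elements (for instance semilattice operations or near-unanimity operations, which may vary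
with the coordinate).

Such a set without a full line in a coordinate direction misses, in every section, a pattern on at
most `m` coordinates; branching on these coordinates gives `|A|^m ≤ (p^m - 1)^n`.
-/

set_option autoImplicit false

namespace Pool.Agent.Results.MP_b30443_co.StructuredSets

open Finset

/-- `A ⊆ F_p^n` contains no nontrivial `k`-term progression `x, x+y, …, x+(k-1)y` with `y ≠ 0`. -/
def APFree (k p n : ℕ) (A : Finset (Fin n → ZMod p)) : Prop :=
  ∀ x y : Fin n → ZMod p, (∀ i : ℕ, i < k → x + i • y ∈ A) → y = 0

/-- `A` is `m`-local: it is determined by its projections onto at most `m` coordinates, that is, it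
is the set of all solutions of some system of conditions each of which involves at most `m`
coordinates. -/
def LocalSet (m p n : ℕ) (A : Finset (Fin n → ZMod p)) : Prop :=
  ∀ x : Fin n → ZMod p,
    (∀ I : Finset (Fin n), I.card ≤ m → ∃ a ∈ A, ∀ i ∈ I, a i = x i) → x ∈ A

/-- `A` is closed under coordinatewise `r`-ary operations: at the coordinate `j` an idempotent
operation `f j` with an absorbing element `o j`, that is `f j a = o j` whenever all entries of `a`
but at most one are equal to `o j`. -/
def Absorbing (r p n : ℕ) (A : Finset (Fin n → ZMod p)) : Prop :=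
  ∃ (f : Fin n → (Fin r → ZMod p) → ZMod p) (o : Fin n → ZMod p),
    (∀ j a, f j (fun _ => a) = a) ∧
    (∀ j, ∀ (s : Fin r) (a : Fin r → ZMod p), (∀ t, t ≠ s → a t = o j) → f j a = o j) ∧
    (∀ X : Fin r → (Fin n → ZMod p), (∀ s, X s ∈ A) → (fun j => f j (fun s => X s j)) ∈ A)

variable {p : ℕ} [hp : Fact p.Prime]

lemma not_axisLine {k n : ℕ} {A : Finset (Fin n → ZMod p)} (hA : APFree k p n A) :
    ¬ TH602.Lines.AxisLine A := by
  rintro ⟨x, i0, h⟩
  have h1 := hA (Function.update x i0 0) (Function.update 0 i0 1) (by
    intro i _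
    have : Function.update x i0 0 + i • Function.update (0 : Fin n → ZMod p) i0 1 =
        Function.update x i0 ((i : ℕ) : ZMod p) := by
      funext j
      by_cases hj : j = i0
      · subst hj
        simp
      · simp [hj]
    rw [this]
    exact h _)
  have h2 := congrFun h1 i0
  simp at h2

/-- Let `p` be a prime, `3 ≤ k ≤ p` and `m ≥ 1`. Let `A = B ∩ C ⊆ F_p^n`, where `B` is `m`-local and
`C` is everything or closed under coordinatewise idempotent `r`-ary operations with absorbing
elements, `1 ≤ r ≤ m`. If `A` contains no nontrivial `k`-term progression, then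
`|A| ^ m ≤ (p ^ m - 1) ^ n`. -/
theorem result (p : ℕ) [Fact p.Prime] (k : ℕ) (_hk : 3 ≤ k) (_hkp : k ≤ p) (m n : ℕ) (hm : 1 ≤ m)
    (B C : Finset (Fin n → ZMod p)) (hB : LocalSet m p n B)
    (hC : C = Finset.univ ∨ ∃ r : ℕ, 1 ≤ r ∧ r ≤ m ∧ Absorbing r p n C)
    (hA : APFree k p n (B ∩ C)) : (B ∩ C).card ^ m ≤ (p ^ m - 1) ^ n := by
  have hq : Fintype.card (ZMod p) = p := ZMod.card p
  have hq1 : 1 ≤ Fintype.card (ZMod p) := by
    rw [hq]
    exact (Fact.out : p.Prime).one_lt.le
  rcases hC with rfl | ⟨r, hr, hrm, hC⟩
  · rw [Finset.inter_univ] at hA ⊢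
    have h := TH602.Lines.local_card B m hm hq1 hB (not_axisLine hA)
    rwa [hq, Fintype.card_fin] at h
  · have h := TH602.Lines.inter_card B C m r hr hrm hq1 hB hC (not_axisLine hA)
    rwa [hq, Fintype.card_fin] at h

end Pool.Agent.Results.MP_b30443_co.StructuredSets
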